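import Mathlib

/-! Every set of 257 integers contains an admissible set of 45 integers. -/

set_option autoImplicit false

open Finset

namespace Pool.Agent.X126.Dif

/-- `S` misses a class modulo `p` -/
def Miss (p : ℕ) (S : Finset ℤ) : Prop := ∃ c : ℤ, ∀ s ∈ S, ¬ (p : ℤ) ∣ s - c

theorem Miss.mono {p : ℕ} {S T : Finset ℤ} (h : Miss p S) (hT : T ⊆ S) : Miss p T := by
  obtain ⟨c, hc⟩ := h
  exact ⟨c, fun s hs => hc s (hT hs)⟩

/-- the elements of `S` in the class of `c` -/
theorem sum_classes (p : ℕ) (hp : 0 < p) (S : Finset ℤ) :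
    S.card = ∑ c ∈ range p, (S.filter (fun s : ℤ => s % (p : ℤ) = (c : ℤ))).card := by
  classical
  have hp0 : (p : ℤ) ≠ 0 := by exact_mod_cast hp.ne'
  have h6 := Finset.card_eq_sum_card_fiberwise (s := S) (t := Finset.range p)
    (f := fun s : ℤ => (s % p).toNat) (by
      intro s _
      rw [Finset.coe_range, Set.mem_Iio]
      show (s % p).toNat < p
      have h7 := Int.emod_nonneg s hp0
      have h8 := Int.emod_lt_of_pos s (by exact_mod_cast hp : (0 : ℤ) < p)
      omega)
  rw [h6]
  apply Finset.sum_congr rfl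
  intro c _
  congr 1
  ext s
  simp only [Finset.mem_filter, and_congr_right_iff]
  intro _
  have h7 := Int.emod_nonneg s hp0
  constructor
  · intro h; omega
  · intro h; omega

theorem miss_of_filter {p : ℕ} {S T : Finset ℤ} {c : ℤ} (hT : ∀ s ∈ T, s ∈ S ∧ s % p ≠ c % p) :
    Miss p T := by
  refine ⟨c, fun s hs hd => (hT s hs).2 ?_⟩
  exact Int.ModEq.symm (Int.modEq_iff_dvd.mpr hd)

/-- removing a smallest class -/
theorem remove_class (p : ℕ) (hp : 0 < p) (S : Finset ℤ) :
    ∃ S' ⊆ S, Miss p S' ∧ S.card ≤ S'.card + S.card / p := by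
  classical
  have h5 := sum_classes p hp S
  by_contra hcon
  push Not at hcon
  have h1 : ∀ c ∈ range p, S.card / p + 1 ≤ (S.filter (fun s : ℤ => s % (p : ℤ) = (c : ℤ))).card := by
    intro c hcr
    have hcp : c < p := Finset.mem_range.mp hcr
    have h2 := hcon (S.filter (fun s => ¬ s % p = (c : ℤ))) (Finset.filter_subset _ _)
      (miss_of_filter (S := S) (c := (c : ℤ)) (fun s hs => by
        rw [Finset.mem_filter] at hs
        refine ⟨hs.1, ?_⟩
        rw [Int.emod_eq_of_lt (a := (c : ℤ)) (by positivity) (by exact_mod_cast hcp)]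
        exact hs.2))
    have h4 := Finset.card_filter_add_card_filter_not (s := S) (fun s => s % p = (c : ℤ))
    omega
  have h9 : p * (S.card / p + 1) ≤ S.card := by
    calc p * (S.card / p + 1) = ∑ c ∈ Finset.range p, (S.card / p + 1) := by simp
      _ ≤ ∑ c ∈ Finset.range p, (S.filter (fun s : ℤ => s % (p : ℤ) = (c : ℤ))).card :=
        Finset.sum_le_sum h1
      _ = S.card := h5.symm
  have h10 := Nat.lt_mul_div_succ S.card hp
  have : p * (S.card / p + 1) = p * (S.card / p).succ := rfl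
  omega

/-- the elements of `S` whose removal makes `S` miss a class modulo `p`: at least `2 p - |S|` -/
theorem singles (p : ℕ) (hp : 0 < p) (S : Finset ℤ) (hS : 2 * p ≤ 2 * S.card) :
    ∃ B ⊆ S, 2 * p ≤ S.card + B.card ∧ ∀ x ∈ B, Miss p (S.erase x) := by
  classical
  by_cases hm : Miss p S
  · exact ⟨S, Subset.refl _, by omega, fun x _ => hm.mono (erase_subset _ _)⟩
  -- every class is met
  have hall : ∀ c ∈ range p, 1 ≤ (S.filter (fun s : ℤ => s % (p : ℤ) = (c : ℤ))).card := by
    intro c hcr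
    by_contra h0
    have h0' : (S.filter (fun s : ℤ => s % (p : ℤ) = (c : ℤ))).card = 0 := by omega
    rw [Finset.card_eq_zero, Finset.filter_eq_empty_iff] at h0'
    have hcp : c < p := Finset.mem_range.mp hcr
    exact hm (miss_of_filter (S := S) (c := (c : ℤ)) (fun s hs => ⟨hs, by
      rw [Int.emod_eq_of_lt (a := (c : ℤ)) (by positivity) (by exact_mod_cast hcp)]
      exact h0' hs⟩))
  set B : Finset ℤ := S.filter (fun x : ℤ => (S.filter (fun s : ℤ => s % (p : ℤ) = x % (p : ℤ))).card = 1) with hB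
  refine ⟨B, filter_subset _ _, ?_, ?_⟩
  · -- count
    have h5 := sum_classes p hp S
    have h6 := sum_classes p hp B
    have key : ∀ c ∈ range p, 2 ≤ (S.filter (fun s : ℤ => s % (p : ℤ) = (c : ℤ))).card +
        (B.filter (fun s : ℤ => s % (p : ℤ) = (c : ℤ))).card := by
      intro c hcr
      have h1 := hall c hcr
      rcases Nat.lt_or_ge 1 (S.filter (fun s : ℤ => s % (p : ℤ) = (c : ℤ))).card with h | h
      · omega
      · have h2 : (S.filter (fun s : ℤ => s % (p : ℤ) = (c : ℤ))).card = 1 := by omega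
        have h3 : (S.filter (fun s : ℤ => s % (p : ℤ) = (c : ℤ))) ⊆ (B.filter (fun s : ℤ => s % (p : ℤ) = (c : ℤ))) := by
          intro x hx
          rw [mem_filter] at hx ⊢
          refine ⟨?_, hx.2⟩
          rw [hB, mem_filter]
          refine ⟨hx.1, ?_⟩
          rw [hx.2]
          exact h2
        have h4 := card_le_card h3
        omega
    have h7 : ∑ c ∈ range p, 2 ≤ ∑ c ∈ range p, ((S.filter (fun s : ℤ => s % (p : ℤ) = (c : ℤ))).card +
        (B.filter (fun s : ℤ => s % (p : ℤ) = (c : ℤ))).card) := Finset.sum_le_sum key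
    rw [Finset.sum_add_distrib, ← h5, ← h6, Finset.sum_const, card_range, smul_eq_mul] at h7
    omega
  · intro x hx
    rw [hB, mem_filter] at hx
    refine miss_of_filter (S := S) (c := x) (fun s hs => ⟨mem_of_mem_erase hs, fun h => ?_⟩)
    obtain ⟨y, hy⟩ := card_eq_one.1 hx.2
    have h1 : s ∈ S.filter (fun s : ℤ => s % (p : ℤ) = x % (p : ℤ)) := mem_filter.2 ⟨mem_of_mem_erase hs, h⟩
    have h2 : x ∈ S.filter (fun s : ℤ => s % (p : ℤ) = x % (p : ℤ)) := mem_filter.2 ⟨hx.1, rfl⟩
    rw [hy, mem_singleton] at h1 h2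
    exact (ne_of_mem_erase hs) (h1.trans h2.symm)

/-- a set of 47 integers and the primes from `29` to `43`: removing two elements is enough -/
theorem two_elements (S : Finset ℤ) (hS : S.card = 47) :
    ∃ T ⊆ S, 45 ≤ T.card ∧ Miss 29 T ∧ Miss 31 T ∧ Miss 37 T ∧ Miss 41 T ∧ Miss 43 T := by
  classical
  obtain ⟨A29, a29, k29, m29⟩ := singles 29 (by norm_num) S (by omega)
  obtain ⟨A31, a31, k31, m31⟩ := singles 31 (by norm_num) S (by omega)
  obtain ⟨A37, a37, k37, m37⟩ := singles 37 (by norm_num) S (by omega)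
  obtain ⟨A41, a41, k41, m41⟩ := singles 41 (by norm_num) S (by omega)
  obtain ⟨A43, a43, k43, m43⟩ := singles 43 (by norm_num) S (by omega)
  rw [hS] at k29 k31 k37 k41 k43
  -- it suffices to find two elements
  suffices h : ∃ x y : ℤ, (x ∈ A29 ∨ y ∈ A29) ∧ (x ∈ A31 ∨ y ∈ A31) ∧ (x ∈ A37 ∨ y ∈ A37) ∧
      (x ∈ A41 ∨ y ∈ A41) ∧ (x ∈ A43 ∨ y ∈ A43) by
    obtain ⟨x, y, h29, h31, h37, h41, h43⟩ := h
    have gen : ∀ (p : ℕ) (A : Finset ℤ), (∀ x ∈ A, Miss p (S.erase x)) → (x ∈ A ∨ y ∈ A) →
        Miss p ((S.erase x).erase y) := by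
      intro p A hA hxy
      rcases hxy with hx | hy
      · exact (hA x hx).mono (erase_subset _ _)
      · refine (hA y hy).mono ?_
        rw [erase_right_comm]
        exact erase_subset _ _
    refine ⟨(S.erase x).erase y, (erase_subset _ _).trans (erase_subset _ _), ?_,
      gen 29 A29 m29 h29, gen 31 A31 m31 h31, gen 37 A37 m37 h37, gen 41 A41 m41 h41,
      gen 43 A43 m43 h43⟩
    have h1 := pred_card_le_card_erase (s := S) (a := x)
    have h2 := pred_card_le_card_erase (s := S.erase x) (a := y)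
    omega
  -- complements
  have c37 : (S \ A37).card ≤ 20 := by rw [card_sdiff_of_subset a37]; omega
  have c41 : (S \ A41).card ≤ 12 := by rw [card_sdiff_of_subset a41]; omega
  have c43 : (S \ A43).card ≤ 8 := by rw [card_sdiff_of_subset a43]; omega
  by_cases hd : Disjoint A29 A31
  · obtain ⟨X, hX, hXc⟩ := exists_subset_card_eq (s := A29) (n := 11) (by omega)
    obtain ⟨Y, hY, hYc⟩ := exists_subset_card_eq (s := A31) (n := 15) (by omega)
    have hXY : Disjoint X Y := disjoint_of_subset_left hX (disjoint_of_subset_right hY hd)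
    have bad : ∀ (A : Finset ℤ) (b : ℕ), (S \ A).card ≤ b →
        4 * ((X \ A) ×ˢ (Y \ A)).card ≤ b ^ 2 := by
      intro A b hb
      have h1 : ((X \ A) ∪ (Y \ A)).card ≤ (S \ A).card := by
        apply card_le_card
        intro z hz
        rw [mem_union, mem_sdiff, mem_sdiff] at hz
        rw [mem_sdiff]
        rcases hz with hz | hz
        · exact ⟨a29 (hX hz.1), hz.2⟩
        · exact ⟨a31 (hY hz.1), hz.2⟩
      rw [card_union_of_disjoint (disjoint_of_subset_left sdiff_subset
        (disjoint_of_subset_right sdiff_subset hXY))] at h1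
      rw [card_product]
      have h2 : (X \ A).card + (Y \ A).card ≤ b := h1.trans hb
      nlinarith [sq_nonneg (((X \ A).card : ℤ) - (Y \ A).card), Nat.mul_le_mul h2 h2,
        four_mul_le_sq_add (X \ A).card (Y \ A).card]
    have b37 := bad A37 20 c37
    have b41 := bad A41 12 c41
    have b43 := bad A43 8 c43
    have hlt : (((X \ A37) ×ˢ (Y \ A37)) ∪ (((X \ A41) ×ˢ (Y \ A41)) ∪
        ((X \ A43) ×ˢ (Y \ A43)))).card < (X ×ˢ Y).card := by
      rw [card_product X Y, hXc, hYc]
      have u1 := card_union_le ((X \ A37) ×ˢ (Y \ A37)) (((X \ A41) ×ˢ (Y \ A41)) ∪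
        ((X \ A43) ×ˢ (Y \ A43)))
      have u2 := card_union_le ((X \ A41) ×ˢ (Y \ A41)) ((X \ A43) ×ˢ (Y \ A43))
      omega
    obtain ⟨z, hz, hzn⟩ := exists_mem_notMem_of_card_lt_card hlt
    rw [mem_product] at hz
    simp only [mem_union, mem_product, mem_sdiff, not_or, not_and] at hzn
    refine ⟨z.1, z.2, Or.inl (hX hz.1), Or.inr (hY hz.2), ?_, ?_, ?_⟩
    · by_contra h
      push Not at h
      exact hzn.1 ⟨hz.1, h.1⟩ hz.2 h.2
    · by_contra h
      push Not at h
      exact hzn.2.1 ⟨hz.1, h.1⟩ hz.2 h.2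
    · by_contra h
      push Not at h
      exact hzn.2.2 ⟨hz.1, h.1⟩ hz.2 h.2
  · rw [not_disjoint_iff] at hd
    obtain ⟨x, hx29, hx31⟩ := hd
    have hlt : ((S \ A37) ∪ ((S \ A41) ∪ (S \ A43))).card < S.card := by
      have u1 := card_union_le (S \ A37) ((S \ A41) ∪ (S \ A43))
      have u2 := card_union_le (S \ A41) (S \ A43)
      omega
    obtain ⟨y, hy, hyn⟩ := exists_mem_notMem_of_card_lt_card hlt
    simp only [mem_union, mem_sdiff, not_or, not_and, not_not] at hyn
    exact ⟨x, y, Or.inl hx29, Or.inl hx31, Or.inr (hyn.1 hy), Or.inr (hyn.2.1 hy),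
      Or.inr (hyn.2.2 hy)⟩

/-- every set of 257 integers contains 45 integers which miss a class modulo every prime -/
theorem admissible_subset (S : Finset ℤ) (hS : 257 ≤ S.card) :
    ∃ T ⊆ S, T.card = 45 ∧ ∀ p : ℕ, p.Prime → Miss p T := by
  classical
  obtain ⟨S1, s1, m1, k1⟩ := remove_class 2 (by norm_num) S
  obtain ⟨S2, s2, m2, k2⟩ := remove_class 5 (by norm_num) S1
  obtain ⟨S3, s3, m3, k3⟩ := remove_class 3 (by norm_num) S2
  obtain ⟨S4, s4, m4, k4⟩ := remove_class 19 (by norm_num) S3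
  obtain ⟨S5, s5, m5, k5⟩ := remove_class 17 (by norm_num) S4
  obtain ⟨S6, s6, m6, k6⟩ := remove_class 23 (by norm_num) S5
  obtain ⟨S7, s7, m7, k7⟩ := remove_class 7 (by norm_num) S6
  obtain ⟨S8, s8, m8, k8⟩ := remove_class 11 (by norm_num) S7
  obtain ⟨S9, s9, m9, k9⟩ := remove_class 13 (by norm_num) S8
  have h1 : 129 ≤ S1.card := by omega
  have h2 : 104 ≤ S2.card := by omega
  have h3 : 70 ≤ S3.card := by omega
  have h4 : 67 ≤ S4.card := by omega
  have h5 : 64 ≤ S5.card := by omega
  have h6 : 62 ≤ S6.card := by omega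
  have h7 : 54 ≤ S7.card := by omega
  have h8 : 50 ≤ S8.card := by omega
  have h9 : 47 ≤ S9.card := by omega
  obtain ⟨U, hU, hUc⟩ := exists_subset_card_eq h9
  obtain ⟨V, hV, hVc, v29, v31, v37, v41, v43⟩ := two_elements U hUc
  obtain ⟨T, hT, hTc⟩ := exists_subset_card_eq hVc
  have t9 : T ⊆ S9 := (hT.trans hV).trans hU
  have t8 := t9.trans s9
  have t7 := t8.trans s8
  have t6 := t7.trans s7
  have t5 := t6.trans s6
  have t4 := t5.trans s5
  have t3 := t4.trans s4
  have t2 := t3.trans s3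
  have t1 := t2.trans s2
  refine ⟨T, t1.trans s1, hTc, fun p hp => ?_⟩
  by_cases hbig : 45 < p
  · -- a class is missed
    have hp0 : (p : ℤ) ≠ 0 := by exact_mod_cast hp.ne_zero
    have hcard : (T.image (fun s : ℤ => (s % p).toNat)).card < (Finset.range p).card := by
      rw [Finset.card_range]
      exact lt_of_le_of_lt Finset.card_image_le (by omega)
    obtain ⟨c, hc, hcn⟩ := Finset.exists_mem_notMem_of_card_lt_card hcard
    refine ⟨c, fun s hs hd => hcn ?_⟩
    rw [Finset.mem_image]
    refine ⟨s, hs, ?_⟩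
    have h3 : s % p = (c : ℤ) % p := Int.ModEq.symm ((Int.modEq_iff_dvd).mpr hd)
    rw [h3, Int.emod_eq_of_lt (by positivity) (by exact_mod_cast Finset.mem_range.mp hc)]
    simp
  · have hp45 : p ≤ 45 := by omega
    interval_cases p <;> first
      | exact m1.mono t1
      | exact m2.mono t2
      | exact m3.mono t3
      | exact m4.mono t4
      | exact m5.mono t5
      | exact m6.mono t6
      | exact m7.mono t7
      | exact m8.mono t8
      | exact m9.mono t9
      | exact v29.mono hT
      | exact v31.mono hT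
      | exact v37.mono hT
      | exact v41.mono hT
      | exact v43.mono hT
      | (exfalso; revert hp; norm_num)

end Pool.Agent.X126.Dif
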