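import Mathlib
import Pool.Agent.H330.Ramsey
import Pool.Agent.X126.Dif.Adm

/-! Turán and Ramsey consequences of a relation which is met by every set of `r + 1` integers. -/

set_option autoImplicit false

open Finset

namespace Pool.Agent.X126.Dif

/-- Turán's theorem for a relation on a set of integers without independent sets of size `r + 1` -/
theorem turan_count (S : Finset ℤ) (R : ℤ → Prop) (r : ℕ) (hr : 1 ≤ r)
    (h : ∀ T ⊆ S, T.card = r + 1 → ∃ a ∈ T, ∃ b ∈ T, a < b ∧ R (b - a)) (D : Finset (ℤ × ℤ))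
    (hD : ∀ a ∈ S, ∀ b ∈ S, a < b → R (b - a) → (a, b) ∈ D) :
    S.card ^ 2 ≤ r * (2 * D.card + S.card) := by
  classical
  -- the complement graph
  let G : SimpleGraph S :=
    { Adj := fun a b => a ≠ b ∧ ¬ R (max (a : ℤ) b - min (a : ℤ) b)
      symm := ⟨fun a b hab => ⟨hab.1.symm, by rw [max_comm, min_comm]; exact hab.2⟩⟩
      loopless := ⟨fun a ha => ha.1 rfl⟩ }
  have hcf : G.CliqueFree (r + 1) := by
    intro t ht
    rw [SimpleGraph.isNClique_iff] at ht
    have hinj : Set.InjOn (fun a : S => (a : ℤ)) t := fun a _ b _ hab => Subtype.ext hab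
    obtain ⟨a, ha, b, hb, hab, hR⟩ := h (t.image (fun a : S => (a : ℤ)))
      (by
        intro x hx
        obtain ⟨y, _, rfl⟩ := mem_image.1 hx
        exact y.2)
      (by rw [card_image_of_injOn hinj]; exact ht.2)
    obtain ⟨a', ha', rfl⟩ := mem_image.1 ha
    obtain ⟨b', hb', rfl⟩ := mem_image.1 hb
    have hne : a' ≠ b' := fun h => by rw [h] at hab; exact lt_irrefl _ hab
    have h1 := ht.1 (mem_coe.2 ha') (mem_coe.2 hb') hne
    have h2 : ¬ R (max (a' : ℤ) b' - min (a' : ℤ) b') := h1.2
    rw [max_eq_right hab.le, min_eq_left hab.le] at h2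
    exact h2 hR
  -- Turán
  have hE : 2 * r * G.edgeFinset.card ≤ (r - 1) * S.card ^ 2 := by
    obtain ⟨H, hHd, maxH⟩ := SimpleGraph.exists_isTuranMaximal (V := S) (r := r) (by omega)
    have h1 := maxH.2 hcf
    have h2 := ((SimpleGraph.isTuranMaximal_iff_nonempty_iso_turanGraph (by omega)).mp
      maxH).some.card_edgeFinset_eq
    have h3 := SimpleGraph.mul_card_edgeFinset_turanGraph_le (n := Fintype.card S) (r := r)
    rw [← h2] at h3
    rw [Fintype.card_coe] at h3
    calc 2 * r * G.edgeFinset.card ≤ 2 * r * H.edgeFinset.card := Nat.mul_le_mul_left _ h1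
      _ ≤ _ := h3
  -- ordered pairs
  have hdeg : (univ.filter (fun p : S × S => G.Adj p.1 p.2)).card = 2 * G.edgeFinset.card := by
    rw [← SimpleGraph.sum_degrees_eq_twice_card_edges]
    rw [← univ_product_univ, card_filter, sum_product]
    apply sum_congr rfl
    intro a _
    rw [← SimpleGraph.card_neighborFinset_eq_degree, ← card_filter]
    congr 1
    ext b
    simp
  have htot : S.card ^ 2 ≤ S.card + (univ.filter (fun p : S × S => G.Adj p.1 p.2)).card +
      2 * D.card := by
    have h1 : (univ : Finset (S × S)).card = S.card ^ 2 := by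
      rw [← univ_product_univ, card_product, card_univ, Fintype.card_coe, sq]
    have hc : (univ : Finset (S × S)) ⊆ (univ.image (fun a : S => (a, a))) ∪
        (univ.filter (fun p : S × S => G.Adj p.1 p.2)) ∪
        ((univ.filter (fun p : S × S => ((p.1 : ℤ), (p.2 : ℤ)) ∈ D)) ∪
        (univ.filter (fun p : S × S => ((p.2 : ℤ), (p.1 : ℤ)) ∈ D))) := by
      intro p _
      simp only [mem_union, mem_image, mem_filter, mem_univ, true_and]
      by_cases hp : p.1 = p.2
      · left; left
        exact ⟨p.1, Prod.ext rfl hp⟩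
      by_cases hA : G.Adj p.1 p.2
      · left; right; exact hA
      right
      have hR : R (max (p.1 : ℤ) p.2 - min (p.1 : ℤ) p.2) := by
        by_contra hR
        exact hA ⟨hp, hR⟩
      have hne : (p.1 : ℤ) ≠ p.2 := fun h => hp (Subtype.ext h)
      rcases lt_or_gt_of_ne hne with hlt | hlt
      · left
        rw [max_eq_right hlt.le, min_eq_left hlt.le] at hR
        exact hD _ p.1.2 _ p.2.2 hlt hR
      · right
        rw [max_eq_left (le_of_lt hlt), min_eq_right (le_of_lt hlt)] at hR
        exact hD _ p.2.2 _ p.1.2 hlt hR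
    have h2 := card_le_card hc
    rw [h1] at h2
    have u1 := card_union_le ((univ.image (fun a : S => (a, a))) ∪
        (univ.filter (fun p : S × S => G.Adj p.1 p.2)))
        ((univ.filter (fun p : S × S => ((p.1 : ℤ), (p.2 : ℤ)) ∈ D)) ∪
        (univ.filter (fun p : S × S => ((p.2 : ℤ), (p.1 : ℤ)) ∈ D)))
    have u2 := card_union_le (univ.image (fun a : S => (a, a)))
        (univ.filter (fun p : S × S => G.Adj p.1 p.2))
    have u3 := card_union_le (univ.filter (fun p : S × S => ((p.1 : ℤ), (p.2 : ℤ)) ∈ D))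
        (univ.filter (fun p : S × S => ((p.2 : ℤ), (p.1 : ℤ)) ∈ D))
    have u4 : (univ.image (fun a : S => (a, a))).card ≤ S.card := by
      refine card_image_le.trans ?_
      rw [card_univ, Fintype.card_coe]
    have u5 : (univ.filter (fun p : S × S => ((p.1 : ℤ), (p.2 : ℤ)) ∈ D)).card ≤ D.card := by
      apply card_le_card_of_injOn (fun p => ((p.1 : ℤ), (p.2 : ℤ)))
      · intro p hp
        exact (mem_filter.1 hp).2
      · intro p _ q _ hpq
        have := Prod.ext_iff.1 hpq
        exact Prod.ext (Subtype.ext this.1) (Subtype.ext this.2)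
    have u6 : (univ.filter (fun p : S × S => ((p.2 : ℤ), (p.1 : ℤ)) ∈ D)).card ≤ D.card := by
      apply card_le_card_of_injOn (fun p => ((p.2 : ℤ), (p.1 : ℤ)))
      · intro p hp
        exact (mem_filter.1 hp).2
      · intro p _ q _ hpq
        have := Prod.ext_iff.1 hpq
        exact Prod.ext (Subtype.ext this.2) (Subtype.ext this.1)
    omega
  rw [hdeg] at htot
  obtain ⟨k, rfl⟩ : ∃ k, r = k + 1 := ⟨r - 1, by omega⟩
  rw [Nat.add_sub_cancel] at hE
  nlinarith

/-- Ramsey's theorem for such a relation -/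
theorem ramsey_clique (S : Set ℤ) (hS : S.Infinite) (R : ℤ → Prop) (r : ℕ)
    (h : ∀ T : Finset ℤ, T.card = r → ∃ a ∈ T, ∃ b ∈ T, a < b ∧ R (b - a)) :
    ∃ T ⊆ S, T.Infinite ∧ ∀ s ∈ T, ∀ t ∈ T, s < t → R (t - s) := by
  classical
  have : Infinite S := hS.to_subtype
  obtain ⟨H, c, hH, hc⟩ := Pool.Agent.H330.infinite_ramsey (A := S) (C := Prop) 2
    (fun s => ∃ a ∈ s, ∃ b ∈ s, (a : ℤ) < b ∧ R ((b : ℤ) - a))
  have hinj : Set.InjOn (fun a : S => (a : ℤ)) H := fun a _ b _ hab => Subtype.ext hab
  -- the colour is True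
  have hcT : c := by
    obtain ⟨T, hT, hTc⟩ := (hH.image hinj).exists_subset_card_eq r
    obtain ⟨a, ha, b, hb, hab, hR⟩ := h T hTc
    obtain ⟨a', ha', rfl⟩ := hT (mem_coe.2 ha)
    obtain ⟨b', hb', rfl⟩ := hT (mem_coe.2 hb)
    have hne : a' ≠ b' := fun h => by rw [h] at hab; exact lt_irrefl _ hab
    have h1 := hc {a', b'} (card_pair hne) (by
      intro x hx
      rw [coe_insert, coe_singleton] at hx
      rcases hx with rfl | rfl
      · exact ha'
      · exact hb')
    rw [← h1]
    exact ⟨a', by simp, b', by simp, hab, hR⟩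
  refine ⟨(fun a : S => (a : ℤ)) '' H, ?_, hH.image hinj, ?_⟩
  · rintro _ ⟨a, _, rfl⟩
    exact a.2
  · rintro _ ⟨a, ha, rfl⟩ _ ⟨b, hb, rfl⟩ hab
    have hne : a ≠ b := fun h => by rw [h] at hab; exact lt_irrefl _ hab
    have h1 := hc {a, b} (card_pair hne) (by
      intro x hx
      rw [coe_insert, coe_singleton] at hx
      rcases hx with rfl | rfl
      · exact ha
      · exact hb)
    rw [← h1] at hcT
    obtain ⟨u, hu, v, hv, huv, hR⟩ := hcT
    rw [mem_insert, mem_singleton] at hu hv
    simp only at hab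
    rcases hu with rfl | rfl <;> rcases hv with rfl | rfl
    · exact absurd huv (lt_irrefl _)
    · exact hR
    · exact absurd huv (not_lt.2 hab.le)
    · exact absurd huv (lt_irrefl _)

/-- the same for sets of integers `2 ∣ N` -/
theorem admissible_even (S : Finset ℤ) (hS : 129 ≤ S.card) :
    ∃ T ⊆ S, T.card = 45 ∧ ∀ p : ℕ, p.Prime → 3 ≤ p → Miss p T := by
  classical
  obtain ⟨S2, s2, m2, k2⟩ := remove_class 5 (by norm_num) S
  obtain ⟨S3, s3, m3, k3⟩ := remove_class 3 (by norm_num) S2
  obtain ⟨S4, s4, m4, k4⟩ := remove_class 19 (by norm_num) S3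
  obtain ⟨S5, s5, m5, k5⟩ := remove_class 17 (by norm_num) S4
  obtain ⟨S6, s6, m6, k6⟩ := remove_class 23 (by norm_num) S5
  obtain ⟨S7, s7, m7, k7⟩ := remove_class 7 (by norm_num) S6
  obtain ⟨S8, s8, m8, k8⟩ := remove_class 11 (by norm_num) S7
  obtain ⟨S9, s9, m9, k9⟩ := remove_class 13 (by norm_num) S8
  have h2 : 104 ≤ S2.card := by omega
  have h3 : 70 ≤ S3.card := by omega
  have h4 : 67 ≤ S4.card := by omega
  have h5 : 64 ≤ S5.card := by omega
  have h6 : 62 ≤ S6.card := by omega
  have h7 : 54 ≤ S7.card := by omega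
  have h8 : 50 ≤ S8.card := by omega
  have h9 : 47 ≤ S9.card := by omega
  obtain ⟨U, hU, hUc⟩ := exists_subset_card_eq h9
  obtain ⟨V, hV, hVc, v29, v31, v37, v41, v43⟩ := two_elements U hUc
  obtain ⟨T, hT, hTc⟩ := exists_subset_card_eq hVc
  have t9 : T ⊆ S9 := (hT.trans hV).trans hU
  have t8 := t9.trans s9
  have t7 := t8.trans s8
  have t6 := t7.trans s7
  have t5 := t6.trans s6
  have t4 := t5.trans s5
  have t3 := t4.trans s4
  have t2 := t3.trans s3
  refine ⟨T, t2.trans s2, hTc, fun p hp hp3 => ?_⟩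
  by_cases hbig : 45 < p
  · have hp0 : (p : ℤ) ≠ 0 := by exact_mod_cast hp.ne_zero
    have hcard : (T.image (fun s : ℤ => (s % p).toNat)).card < (Finset.range p).card := by
      rw [Finset.card_range]
      exact lt_of_le_of_lt Finset.card_image_le (by omega)
    obtain ⟨c, hc, hcn⟩ := Finset.exists_mem_notMem_of_card_lt_card hcard
    refine ⟨c, fun s hs hd => hcn ?_⟩
    rw [Finset.mem_image]
    refine ⟨s, hs, ?_⟩
    have h3 : s % p = (c : ℤ) % p := Int.ModEq.symm ((Int.modEq_iff_dvd).mpr hd)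
    rw [h3, Int.emod_eq_of_lt (by positivity) (by exact_mod_cast Finset.mem_range.mp hc)]
    simp
  · have hp45 : p ≤ 45 := by omega
    interval_cases p <;> first
      | exact m2.mono t2
      | exact m3.mono t3
      | exact m4.mono t4
      | exact m5.mono t5
      | exact m6.mono t6
      | exact m7.mono t7
      | exact m8.mono t8
      | exact m9.mono t9
      | exact v29.mono hT
      | exact v31.mono hT
      | exact v37.mono hT
      | exact v41.mono hT
      | exact v43.mono hT
      | (exfalso; revert hp; norm_num)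

end Pool.Agent.X126.Dif
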